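import Pool.Agent.MP_ca0a54_nt.H24.GoodA

/-! The mollifier is large at one of finitely many scales. -/

open Complex MeasureTheory Filter Topology

namespace Pool.Agent.MP_ca0a54_nt.H34

open Pool.Agent.MP_ca0a54_nt.L0 Pool.Agent.MP_ca0a54_nt.H24

theorem params (c e C Co B p : ℝ) (m : ℕ) (hc : 0 < c) (he : 0 < e) (hC : 1 ≤ C) (hCo : 1 ≤ Co)
    (hB : 1 ≤ B) :
    ∃ D x A : ℝ, 2 ≤ D ∧ 2 ≤ x ∧ B ≤ A ∧ Co * (1 + D ^ m * x) ≤ A ∧ A * Real.exp (-x) ≤ 1 ∧
      2 * C ^ 2 ≤ (D - 1) * x ∧ 6 * C ^ 2 ≤ (D - 1) * (c * e / 4) ^ 2 ∧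
      |p| * Real.log A ≤ c / 2 * √((D - 1) * x / (2 * C)) := by
  obtain ⟨q, hq⟩ : ∃ q : ℝ, q = (c * e / 4) ^ 2 := ⟨_, rfl⟩
  have hq0 : 0 < q := by rw [hq]; positivity
  rw [← hq]
  obtain ⟨D, hD⟩ : ∃ D : ℝ, D = 2 + 6 * C ^ 2 / q := ⟨_, rfl⟩
  have hD2 : 2 ≤ D := by
    have : 0 ≤ 6 * C ^ 2 / q := by positivity
    linarith
  have hDq : 6 * C ^ 2 ≤ (D - 1) * q := by
    have : (D - 1) * q = q + 6 * C ^ 2 := by rw [hD]; field_simp; ring
    linarith
  obtain ⟨K, hK⟩ : ∃ K : ℝ, K = Co * D ^ m := ⟨_, rfl⟩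
  have hK0 : 0 ≤ K := by rw [hK]; positivity
  obtain ⟨G, hG⟩ : ∃ G : ℝ, G = B + Co + K := ⟨_, rfl⟩
  have hG1 : 1 ≤ G := by linarith
  have hlG : 0 ≤ Real.log G := Real.log_nonneg hG1
  obtain ⟨k, hk⟩ : ∃ k : ℝ, k = c / 2 * √((D - 1) / (2 * C)) := ⟨_, rfl⟩
  have hk0 : 0 < k := by
    have : 0 < (D - 1) / (2 * C) := div_pos (by linarith) (by linarith)
    rw [hk]
    positivity
  obtain ⟨r, hr⟩ : ∃ r : ℝ, r = |p| * (Real.log G + 4) / k := ⟨_, rfl⟩
  have h4 : 0 ≤ r := by rw [hr]; positivity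
  have hrk : |p| * (Real.log G + 4) = k * r := by rw [hr]; field_simp
  obtain ⟨s, hs⟩ : ∃ s : ℝ, s = 2 + 2 * G + 2 * C ^ 2 + r := ⟨_, rfl⟩
  have hC2 : 0 ≤ 2 * C ^ 2 := by positivity
  have hs2 : 2 ≤ s := by linarith
  obtain ⟨x, hx⟩ : ∃ x : ℝ, x = s ^ 4 := ⟨_, rfl⟩
  have hs4 : s ≤ x := by
    calc s = s ^ 1 := (pow_one s).symm
      _ ≤ s ^ 4 := pow_le_pow_right₀ (by linarith) (by norm_num)
      _ = x := hx.symm
  have hx0 : 0 ≤ x := by linarith
  have hA : B + Co + K * x ≤ G * x := by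
    have h1 : (B + Co) * 1 ≤ (B + Co) * x :=
      mul_le_mul_of_nonneg_left (by linarith) (by linarith)
    have h2 : G * x = (B + Co) * x + K * x := by rw [hG]; ring
    linarith
  have hKs : 0 ≤ K * x := by positivity
  refine ⟨D, x, B + Co + K * x, hD2, by linarith, by linarith, ?_, ?_, ?_, hDq, ?_⟩
  · have : Co * (1 + D ^ m * x) = Co + K * x := by rw [hK]; ring
    linarith
  · have h1 := Real.quadratic_le_exp_of_nonneg hx0
    have h2 : 2 * G * x ≤ x * x := mul_le_mul_of_nonneg_right (by linarith) hx0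
    rw [Real.exp_neg, ← div_eq_mul_inv, div_le_one (Real.exp_pos _)]
    have h3 : x ^ 2 = x * x := sq x
    linarith
  · have : 1 * x ≤ (D - 1) * x := mul_le_mul_of_nonneg_right (by linarith) hx0
    linarith
  · have h1 : √((D - 1) * x / (2 * C)) = √((D - 1) / (2 * C)) * s ^ 2 := by
      rw [show (D - 1) * x / (2 * C) = (D - 1) / (2 * C) * (s ^ 2) ^ 2 by rw [hx]; ring,
        Real.sqrt_mul (div_nonneg (by linarith) (by linarith)), Real.sqrt_sq (by positivity)]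
    have h2 : Real.log (B + Co + K * x) ≤ (Real.log G + 4) * s := by
      have h3 : Real.log (B + Co + K * x) ≤ Real.log (G * x) :=
        Real.log_le_log (by linarith) hA
      have h8 : Real.log x = 4 * Real.log s := by rw [hx, Real.log_pow]; norm_num
      rw [Real.log_mul (by linarith) (by linarith), h8] at h3
      have h5 : Real.log s ≤ s - 1 := Real.log_le_sub_one_of_pos (by linarith)
      have h6 : Real.log G * 1 ≤ Real.log G * s := mul_le_mul_of_nonneg_left (by linarith) hlG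
      linarith
    have h7 : k * r ≤ k * s := mul_le_mul_of_nonneg_left (by linarith) hk0.le
    calc |p| * Real.log (B + Co + K * x) ≤ |p| * ((Real.log G + 4) * s) :=
          mul_le_mul_of_nonneg_left h2 (abs_nonneg p)
      _ = k * r * s := by rw [← hrk]; ring
      _ ≤ k * s * s := mul_le_mul_of_nonneg_right h7 (by linarith)
      _ = c / 2 * √((D - 1) * x / (2 * C)) := by rw [h1, hk]; ring

theorem norm_pc_le (y α : ℝ) (hy : 0 ≤ y) (hα : 0 ≤ α) (d : ℕ) : ‖pc y α d‖ ≤ 1 := by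
  unfold pc
  rw [Complex.norm_real, Real.norm_eq_abs]
  have hl : 0 ≤ Real.log d := Real.log_natCast_nonneg d
  have hΛ : 0 ≤ ArithmeticFunction.vonMangoldt d := ArithmeticFunction.vonMangoldt_nonneg
  have hΛ' : ArithmeticFunction.vonMangoldt d ≤ Real.log d := ArithmeticFunction.vonMangoldt_le_log
  have h1 : Real.exp (-y * Real.log d) ≤ 1 := Real.exp_le_one_iff.2 (by nlinarith)
  have h2 : Real.exp (-α * Real.log d) ≤ 1 := Real.exp_le_one_iff.2 (by nlinarith)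
  have h3 := Real.exp_pos (-y * Real.log d)
  have h4 := Real.exp_pos (-α * Real.log d)
  have h5 : 0 ≤ ArithmeticFunction.vonMangoldt d * (1 - Real.exp (-y * Real.log d)) :=
    mul_nonneg hΛ (by linarith)
  have h6 : ArithmeticFunction.vonMangoldt d * (1 - Real.exp (-y * Real.log d)) / Real.log d ≤ 1 :=
    div_le_one_of_le₀ (by nlinarith) hl
  rw [abs_of_nonneg (by positivity)]
  exact mul_le_one₀ h6 h4.le h2

theorem ds_split (c : ℕ → ℂ) (S P : Finset ℕ) (hP : P ⊆ S) (w : ℂ) :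
    ds c S w = ds (fun d => c d - (if d ∈ P then 1 else 0)) S w + ds (fun _ => 1) P w := by
  unfold ds
  have h : ∑ n ∈ P, (1 : ℂ) * np (1 / 2 + I * w) n =
      ∑ n ∈ S, (if n ∈ P then 1 else 0) * np (1 / 2 + I * w) n := by
    rw [← Finset.sum_subset hP (f := fun n => (if n ∈ P then (1 : ℂ) else 0) *
      np (1 / 2 + I * w) n) (fun n _ hn => by simp [hn])]
    exact Finset.sum_congr rfl fun n hn => by simp [hn]
  rw [h, ← Finset.sum_add_distrib]
  exact Finset.sum_congr rfl fun n _ => by ring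

theorem meas_ds (c : ℕ → ℂ) (S : Finset ℕ) : Measurable fun t : ℝ => ‖ds c S t‖ₑ := by
  have : Continuous fun t : ℝ => ds c S t := by
    unfold ds np
    fun_prop
  exact this.enorm.measurable

theorem ms_zero (c : ℕ → ℂ) (N : ℕ) :
    ms c (Finset.Icc 1 N) 0 = ∑ d ∈ Finset.Icc 1 N, ‖c d‖ ^ 2 / d := by
  unfold ms
  refine Finset.sum_congr rfl fun d hd => ?_
  have h1 : (0 : ℝ) < d := by
    have := (Finset.mem_Icc.1 hd).1
    exact_mod_cast this
  rw [show (2 * (0 : ℝ) - 1) * Real.log d = -Real.log d by ring, Real.exp_neg, Real.exp_log h1,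
    div_eq_mul_inv]

theorem mem_pr {T κ κ' : ℝ} (hT : 0 ≤ T) {p : ℕ} (hp : p ∈ pr T κ κ') :
    p.Prime ∧ T ^ κ < (p : ℝ) ∧ (p : ℝ) ≤ T ^ κ' := by
  unfold pr at hp
  rw [Finset.mem_filter, Finset.mem_Icc] at hp
  exact ⟨hp.2.1, hp.2.2, (Nat.le_floor_iff (Real.rpow_nonneg hT _)).1 hp.1.2⟩

/-- The Markov step. -/
theorem mark (hM : Mvt1Stmt) : ∀ᶠ T : ℝ in atTop, ∀ (c : ℕ → ℂ) (w l : ℝ), 0 < l →
    (∀ n, ‖c n‖ ≤ 2) → ∑ d ∈ Finset.Icc 1 ⌊T ^ (1 / 3 : ℝ)⌋₊, ‖c d‖ ^ 2 / d ≤ w →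
    ∃ S : Set ℝ, volume S ≤ ENNReal.ofReal (2 * T * √(w + 1) / l) ∧
      ∀ t : ℝ, T ≤ t → t ≤ 2 * T → t ∉ S → ‖ds c (Finset.Icc 1 ⌊T ^ (1 / 3 : ℝ)⌋₊) t‖ ≤ l := by
  filter_upwards [hM (2 / 3) (by norm_num), eventually_ge_atTop (1 : ℝ),
    Real.tendsto_log_atTop.eventually_ge_atTop 2] with T h hT hL
  intro c w l hl hc hw
  have h8 : (2 : ℝ) ≤ Real.log T ^ 3 := by
    calc (2 : ℝ) ≤ 2 ^ 3 := by norm_num
      _ ≤ Real.log T ^ 3 := pow_le_pow_left₀ (by norm_num) hL 3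
  have h1 := h ⌊T ^ (1 / 3 : ℝ)⌋₊ c (Finset.Icc 1 ⌊T ^ (1 / 3 : ℝ)⌋₊) 0 T (2 * T)
    (by
      rw [show (1 - 2 / 3 : ℝ) = 1 / 3 by norm_num]
      exact Nat.floor_le (Real.rpow_nonneg (by linarith) _))
    subset_rfl (fun n _ => (hc n).trans h8) (by linarith)
  simp only [add_zero, Complex.zero_im, max_self, mul_zero, Real.exp_zero, mul_one] at h1
  have h2 : T ^ (-(2 / 3 / 2) : ℝ) ≤ 1 := Real.rpow_le_one_of_one_le_of_nonpos hT (by norm_num)
  have h3 : ∫⁻ t in Set.Icc T (2 * T), ‖ds c (Finset.Icc 1 ⌊T ^ (1 / 3 : ℝ)⌋₊) (t : ℝ)‖ₑ ≤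
      ENNReal.ofReal (2 * T * √(w + 1)) := by
    refine h1.trans (ENNReal.ofReal_le_ofReal ?_)
    refine mul_le_mul_of_nonneg_left (Real.sqrt_le_sqrt ?_) (by linarith)
    rw [ms_zero]
    linarith
  refine ⟨_, markov _ (meas_ds c _) _ measurableSet_Icc _ l hl h3, fun t h₁ h₂ ht => ?_⟩
  by_contra hlt
  refine ht ⟨⟨h₁, h₂⟩, ?_⟩
  rw [← ofReal_norm]
  exact (ENNReal.ofReal_lt_ofReal_iff_of_nonneg hl.le).2 (not_le.1 hlt)

theorem vol_union {m : ℕ} (hm : 1 ≤ m) (S : Fin m → Set ℝ) (b : ℝ) (hb : 0 ≤ b)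
    (h : ∀ j, volume (S j) ≤ ENNReal.ofReal (b / m)) :
    volume (⋃ j, S j) ≤ ENNReal.ofReal b := by
  have hm0 : (0 : ℝ) < m := by exact_mod_cast hm
  calc volume (⋃ j, S j) ≤ ∑ j, volume (S j) := measure_iUnion_fintype_le _ _
    _ ≤ ∑ _j : Fin m, ENNReal.ofReal (b / m) := Finset.sum_le_sum fun j _ => h j
    _ = ENNReal.ofReal (∑ _j : Fin m, b / m) :=
        (ENNReal.ofReal_sum_of_nonneg fun _ _ => by positivity).symm
    _ = ENNReal.ofReal b := by
        congr 1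
        rw [Finset.sum_const, Finset.card_univ, Fintype.card_fin, nsmul_eq_mul]
        field_simp

theorem pa (hM : Mvt1Stmt) (hO : OdeStmt) (hP : ProbStmt) (hQ : PrimesStmt) : PAStmt := by
  intro ε p A₀ hε
  obtain ⟨c, m, hc, hm, hP⟩ := hP (ε / 3) (by positivity)
  have hm0 : (0 : ℝ) < m := by exact_mod_cast hm
  obtain ⟨Co, hCo, hO⟩ := hO (ε / 3 / m) (by positivity)
  obtain ⟨C, hC, hQ⟩ := hQ
  obtain ⟨D, x, A, hD, hx, hBA, hCoA, hAx, hC2, hC6, hpA⟩ :=
    params c (ε / 3 / m) C Co (max (max A₀ m) 1) p m hc (by positivity) hC hCo (le_max_right _ _)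
  have hA1 : 1 ≤ A := (le_max_right _ _).trans hBA
  set lam : ℕ → ℝ := fun j => D ^ j * x with hlam
  have hmono : Monotone lam := fun i j hij =>
    mul_le_mul_of_nonneg_right (pow_le_pow_right₀ (by linarith) hij) (by linarith)
  have hl0 : lam 0 = x := by simp [hlam]
  have hlx : ∀ j, x ≤ lam j := fun j => hl0 ▸ hmono (Nat.zero_le j)
  have hls : ∀ j, lam (j + 1) = D * lam j := fun j => by simp only [hlam]; ring
  have hlm : ∀ j : Fin m, Co * (1 + lam (j + 1)) ≤ A := fun j => by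
    have h1 : lam (j + 1) ≤ lam m := hmono j.2
    exact (mul_le_mul_of_nonneg_left (by simp only [hlam] at h1 ⊢; linarith) (by linarith)).trans
      hCoA
  have he2 : (7 : ℝ) ≤ Real.exp 2 := by
    have h1 := Real.exp_one_gt_d9
    have h2 : Real.exp 2 = Real.exp 1 * Real.exp 1 := by rw [← Real.exp_add]; norm_num
    nlinarith
  have hY7 : ∀ j, (7 : ℝ) ≤ Real.exp (lam j) := fun j =>
    he2.trans (Real.exp_le_exp.2 (hx.trans (hlx j)))
  set κ : ℕ → ℝ := fun j => Real.exp (-lam j) with hκ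
  have hκ0 : ∀ j, 0 < κ j := fun j => Real.exp_pos _
  have hκ4 : ∀ j, κ j ≤ 1 / 4 := fun j => by
    simp only [hκ]
    rw [Real.exp_neg, inv_eq_one_div]
    exact one_div_le_one_div_of_le (by norm_num) (by linarith [hY7 j])
  have hκa : Antitone κ := fun i j hij => Real.exp_le_exp.2 (by linarith [hmono hij])
  have hκs : ∀ j, κ (j + 1) < κ j := fun j => Real.exp_lt_exp.2 (by
    have := hls j
    have := hlx j
    nlinarith)
  have hκi : ∀ j, 1 / κ j = Real.exp (lam j) := fun j => by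
    simp only [hκ]
    rw [Real.exp_neg, one_div, inv_inv]
  have hκq : ∀ j, Real.log (κ j / κ (j + 1)) = (D - 1) * lam j := fun j => by
    simp only [hκ]
    rw [← Real.exp_sub, Real.log_exp, hls]
    ring
  have hAκ : ∀ j, A * κ j ≤ 1 := fun j => by
    have h1 : κ j ≤ Real.exp (-x) := hl0 ▸ hκa (Nat.zero_le j)
    exact (mul_le_mul_of_nonneg_left h1 (by linarith)).trans hAx
  set v : ℕ → ℝ := fun j => (D - 1) * lam j / (2 * C) with hv
  have hvC : ∀ j, C ≤ v j := fun j => by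
    simp only [hv]
    rw [le_div_iff₀ (by linarith)]
    have : (D - 1) * x ≤ (D - 1) * lam j := mul_le_mul_of_nonneg_left (hlx j) (by linarith)
    nlinarith
  have hv2 : ∀ j, (D - 1) * lam j / C = 2 * v j := fun j => by
    simp only [hv]
    field_simp
  have hvp : ∀ j, |p| * Real.log A ≤ c / 2 * √(v j) := fun j => by
    refine hpA.trans (mul_le_mul_of_nonneg_left (Real.sqrt_le_sqrt ?_) (by positivity))
    exact div_le_div_of_nonneg_right (mul_le_mul_of_nonneg_left (hlx j) (by linarith))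
      (by linarith)
  have hvs : ∀ j, 0 < c / 2 * √(v j) := fun j => by
    have : 0 < v j := by linarith [hvC j]
    positivity
  have hw : ∀ j, 2 * √(C * (1 + lam j) + 1) / (c / 2 * √(v j)) ≤ ε / 3 / m := fun j => by
    rw [div_le_iff₀ (hvs j)]
    have hv0 : 0 ≤ v j := by linarith [hvC j]
    have h1 : C * (1 + lam j) + 1 ≤ (c * (ε / 3 / m) / 4) ^ 2 * v j := by
      have h2 : 2 ≤ lam j := hx.trans (hlx j)
      have h3 : C * (1 + lam j) + 1 ≤ 3 * C * lam j := by nlinarith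
      have h4 : (c * (ε / 3 / m) / 4) ^ 2 * v j =
          (D - 1) * (c * (ε / 3 / m) / 4) ^ 2 * lam j / (2 * C) := by
        simp only [hv]
        ring
      rw [h4, le_div_iff₀ (by linarith)]
      have h5 := mul_le_mul_of_nonneg_right hC6 (show 0 ≤ lam j by linarith)
      have h6 := mul_le_mul_of_nonneg_right h3 (show 0 ≤ 2 * C by linarith)
      nlinarith
    have h7 := Real.sqrt_le_sqrt h1
    rw [Real.sqrt_mul (by positivity), Real.sqrt_sq (by positivity)] at h7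
    nlinarith
  refine ⟨m, fun j => Real.exp (lam (j + 1)), A,
    ((le_max_left _ _).trans (le_max_left _ _)).trans hBA, hA1,
    ((le_max_right _ _).trans (le_max_left _ _)).trans hBA, fun j => ⟨hY7 _, ?_⟩, ?_⟩
  · refine Real.exp_le_exp.2 ?_
    have h1 := hlm j
    have h2 : 2 ≤ lam (j + 1) := hx.trans (hlx _)
    nlinarith
  intro ε₁ ab h₁ h₂ h₃ h₄
  have E1 := eventually_all.2 fun j : Fin m => hO (Real.exp (lam (j + 1))) A ε₁ ab
    (by linarith [hY7 (j + 1)]) (by rw [Real.log_exp]; exact hlm j) h₁ h₂ h₃ h₄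
  have E2 := eventually_all.2 fun j : Fin m =>
    (hQ (κ (j + 1)) (κ j) (hκ0 _) (hκs _) (hκ4 _)).1
  have E3 := eventually_all.2 fun j : Fin m =>
    (hQ (κ (j + 1)) (κ j) (hκ0 _) (hκs _) (hκ4 _)).2 A (by linarith) (hAκ _)
  filter_upwards [hP, E1, E2, E3, mark hM, eventually_ge_atTop (1 : ℝ),
    Real.tendsto_log_atTop.eventually_ge_atTop 2] with T hP E1 E2 E3 hK hT hL
  have hT0 : 0 ≤ T := by linarith
  have hL0 : 0 < Real.log T := by linarith
  set P : Fin m → Finset ℕ := fun j => pr T (κ (j + 1)) (κ j) with hPd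
  have hsum : ∀ j : Fin m, v j ≤ ∑ q ∈ P j, 1 / (q : ℝ) := fun j => by
    have h5 := E2 j
    rw [hκq, hv2] at h5
    linarith [hvC j]
  have hlt : ∀ i j : Fin m, i < j → Disjoint (P i) (P j) := fun i j hij => by
    rw [Finset.disjoint_left]
    intro q hi hj
    have h5 := (mem_pr hT0 hi).2.1
    have h6 := (mem_pr hT0 hj).2.2
    have h7 : T ^ κ j ≤ T ^ κ (i + 1) := Real.rpow_le_rpow_of_exponent_le hT (hκa hij)
    linarith
  obtain ⟨S₀, hS₀, hP⟩ := hP P
    (fun j q hq => ⟨(mem_pr hT0 hq).1,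
      (mem_pr hT0 hq).2.2.trans (Real.rpow_le_rpow_of_exponent_le hT (hκ4 _))⟩)
    (fun i j hij => by
      rcases lt_or_gt_of_ne hij with h | h
      · exact hlt i j h
      · exact (hlt j i h).symm)
    (fun j => (hC.trans (hvC j)).trans (hsum j))
  choose S₁ hS₁ hE1 using E1
  have hα0 : 0 ≤ A * (ab / Real.log T) := by positivity
  have hα1 : A * (ab / Real.log T) ≤ 4 * A / Real.log T := by
    rw [← mul_div_assoc]
    exact div_le_div_of_nonneg_right (by nlinarith) hL0.le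
  have E4 := fun j : Fin m => hK
    (fun d => pc (Real.exp (lam (j + 1)) / Real.log T) (A * (ab / Real.log T)) d -
      (if d ∈ P j then 1 else 0)) (C * (1 + lam j)) (c / 2 * √(v j)) (hvs j)
    (fun n => by
      refine (norm_sub_le _ _).trans ?_
      have h5 := norm_pc_le (Real.exp (lam (j + 1)) / Real.log T) (A * (ab / Real.log T))
        (by positivity) hα0 n
      have h6 : ‖(if n ∈ P j then 1 else 0 : ℂ)‖ ≤ 1 := by split_ifs <;> simp
      linarith)
    (by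
      have h5 := E3 j _ hα0 hα1
      rwa [hκi, hκi, Real.log_exp] at h5)
  choose S₂ hS₂ hE2 using E4
  refine ⟨S₀ ∪ ((⋃ j, S₁ j) ∪ ⋃ j, S₂ j), ?_, fun t ht₁ ht₂ ht => ?_⟩
  · have h5 := vol_union hm S₁ (ε / 3 * T) (by positivity) fun j =>
      (hS₁ j).trans (le_of_eq (by congr 1; ring))
    have h6 := vol_union hm S₂ (ε / 3 * T) (by positivity) fun j =>
      (hS₂ j).trans (ENNReal.ofReal_le_ofReal (by
        have h7 := mul_le_mul_of_nonneg_left (hw j) hT0
        calc _ = T * (2 * √(C * (1 + lam j) + 1) / (c / 2 * √(v j))) := by ring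
          _ ≤ T * (ε / 3 / m) := h7
          _ = _ := by ring))
    have h0 : 0 ≤ ε / 3 * T := by positivity
    calc volume (S₀ ∪ ((⋃ j, S₁ j) ∪ ⋃ j, S₂ j))
        ≤ volume S₀ + (volume (⋃ j, S₁ j) + volume (⋃ j, S₂ j)) :=
          (measure_union_le _ _).trans (add_le_add le_rfl (measure_union_le _ _))
      _ ≤ ENNReal.ofReal (ε / 3 * T) + (ENNReal.ofReal (ε / 3 * T) + ENNReal.ofReal (ε / 3 * T)) :=
          add_le_add hS₀ (add_le_add h5 h6)
      _ = ENNReal.ofReal (ε * T) := by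
          rw [← ENNReal.ofReal_add h0 h0, ← ENNReal.ofReal_add h0 (by positivity)]
          congr 1
          ring
  · simp only [Set.mem_union, Set.mem_iUnion, not_or, not_exists] at ht
    obtain ⟨j, hj⟩ := hP t ht₁ ht₂ ht.1
    have h5 := hE1 j t ht₁ ht₂ (ht.2.1 j)
    have h6 := hE2 j t ht₁ ht₂ (ht.2.2 j)
    have hsub : P j ⊆ Finset.Icc 1 ⌊T ^ (1 / 3 : ℝ)⌋₊ := fun q hq => by
      have h7 := mem_pr hT0 hq
      refine Finset.mem_Icc.2 ⟨h7.1.one_le, Nat.le_floor ?_⟩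
      exact h7.2.2.trans (Real.rpow_le_rpow_of_exponent_le hT ((hκ4 _).trans (by norm_num)))
    have h8 := ds_split (pc (Real.exp (lam (j + 1)) / Real.log T) (A * (ab / Real.log T))) _ _
      hsub t
    have h9 : c / 2 * √(v j) ≤ (-dp (pc (Real.exp (lam (j + 1)) / Real.log T)
        (A * (ab / Real.log T))) ⌊T ^ (1 / 3 : ℝ)⌋₊ t).re := by
      unfold dp
      rw [h8, Complex.neg_re, Complex.add_re]
      have h10 := (Complex.re_le_norm _).trans h6
      have h11 := mul_le_mul_of_nonneg_left (Real.sqrt_le_sqrt (hsum j)) hc.le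
      linarith
    set ρ := exp (-dp (pc (Real.exp (lam (j + 1)) / Real.log T)
        (A * (ab / Real.log T))) ⌊T ^ (1 / 3 : ℝ)⌋₊ t) with hρ
    have h12 : Real.exp (c / 2 * √(v j)) ≤ ‖ρ‖ := by
      rw [hρ, Complex.norm_exp]
      exact Real.exp_le_exp.2 h9
    have h13 : 1 ≤ ‖ρ‖ := (Real.one_le_exp (hvs j).le).trans h12
    refine ⟨j, ρ, ?_, h5.trans (ENNReal.ofReal_le_ofReal (by linarith))⟩
    refine le_trans ?_ h12
    rw [Real.rpow_def_of_pos (by linarith)]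
    refine Real.exp_le_exp.2 (le_trans ?_ (hvp j))
    rw [mul_comm]
    exact mul_le_mul_of_nonneg_right (le_abs_self p) (Real.log_nonneg hA1)

end Pool.Agent.MP_ca0a54_nt.H34
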